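import Pool.Agent.Helper79.GL4.GoalsB

/-!
# GL4: packet SYMC (MP_27a5f8_al)
-/

set_option linter.unusedVariables false

namespace GL4

open Module Submodule

theorem Be_succ_succ_le {F : Type} [Field F] {W : Type} [AddCommGroup W] [Module F W]
    (B N : Submodule F W → Submodule F W) (i : ℕ) (x y : Submodule F W) :
    y ≤ Be B N (i + 2) x ↔ ∀ w, Pt w → w ≤ N x → y ≤ Be B N (i + 1) w := by
  change y ≤ ⨅ w : {w : Submodule F W // Pt w ∧ w ≤ N x}, Be B N (i + 1) w.1 ↔ _
  rw [le_iInf_iff]
  exact ⟨fun h w hw hwN => h ⟨w, hw, hwN⟩, fun h w => h w.1 w.2.1 w.2.2⟩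

theorem symc : SYMC := by
  intro F _ W _ _ _ B N hPG
  have hsym : ∀ i : ℕ, ∀ x y, Pt x → Pt y → y ≤ Be B N i x → x ≤ Be B N i y := by
    intro i
    induction i using Nat.strong_induction_on with
    | _ i ih =>
      match i, ih with
      | 0, _ => intro x y hx hy h; exact le_top
      | 1, _ => intro x y hx hy h; exact hPG.symB x y hx hy h
      | 2, ih =>
        intro x y hx hy h
        rw [Be_succ_succ_le] at h ⊢
        have h1 : N x ≤ B y := le_of_pts fun w hw hwN => hPG.symB w y hw hy (h w hw hwN)
        have h2 : N y ≤ B x := hPG.sNB x y hx hy h1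
        intro w hw hwN
        exact hPG.symB x w hx hw (hwN.trans h2)
      | (j + 3), ih =>
        intro x y hx hy h
        rw [show j + 3 = (j + 1) + 2 from rfl, Be_succ_succ_le] at h ⊢
        intro u hu huN
        have h1 : u ≤ Be B N (j + 2) x := by
          rw [Be_succ_succ_le]
          intro w hw hwN
          have h2 := ih (j + 2) (by omega) w y hw hy (h w hw hwN)
          rw [Be_succ_succ_le] at h2
          exact ih (j + 1) (by omega) u w hu hw (h2 u hu huN)
        exact ih (j + 2) (by omega) x u hx hu h1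
  refine ⟨hsym, ?_, ?_⟩
  · intro i x hx
    match i with
    | 0 => exact le_top
    | (j + 1) =>
      exact (Be_succ_succ_le B N j x _).1 le_rfl x hx (hPG.selfN x hx)
  · intro i x y hi hx hy
    obtain ⟨j, rfl⟩ : ∃ j, i = j + 1 := ⟨i - 1, by omega⟩
    constructor
    · intro h
      have h1 := hsym (j + 2) x y hx hy h
      rw [Be_succ_succ_le] at h1
      exact le_of_pts fun w hw hwN => hsym (j + 1) w x hw hx (h1 w hw hwN)
    · intro h
      apply hsym (j + 2) y x hy hx
      rw [Be_succ_succ_le]
      intro w hw hwN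
      exact hsym (j + 1) x w hx hw (hwN.trans h)

end GL4
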