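import Pool.Agent.Helper79.GL4.GoalsA

/-!
# GL4: packet TT (MP_27a5f8_al)

A group 2-transitive on points induces a group containing `SL` on every plane.
-/

set_option linter.unusedVariables false
set_option linter.unusedSectionVars false

namespace GL4.TTaux

open Module Submodule

section

variable {F : Type} [Field F] [Finite F] {W : Type} [AddCommGroup W] [Module F W]
  [FiniteDimensional F W]

/-- lines through a point: `P ⊔ X = L` -/
theorem sup_eq_of_le {P X L : Submodule F W} (hP : Pt P) (hX : Pt X) (hL : Ln L) (hPL : P ≤ L)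
    (hXL : X ≤ L) (h : X ≠ P) : P ⊔ X = L :=
  Submodule.eq_of_le_of_finrank_eq (sup_le hPL hXL) (by
    have := ln_sup hP hX (Ne.symm h)
    rw [Ln] at this hL
    rw [this, hL])

theorem cnt_fib {P : Submodule F W} (hP : Pt P) (O T : Set (Submodule F W))
    (hO : ∀ X ∈ O, Pt X ∧ X ≠ P) (hT : ∀ L ∈ T, Ln L ∧ P ≤ L) (hcov : ∀ X ∈ O, P ⊔ X ∈ T) (c : ℕ)
    (hc : ∀ L ∈ T, {X | X ∈ O ∧ X ≤ L}.ncard = c) : O.ncard = T.ncard * c := by
  classical
  haveI : Fintype (Submodule F W) := Fintype.ofFinite _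
  have h1 : O.ncard = (O.toFinset).card := Set.ncard_eq_toFinset_card' O
  have h2 : T.ncard = (T.toFinset).card := Set.ncard_eq_toFinset_card' T
  rw [h1, h2, Finset.card_eq_sum_card_fiberwise (f := fun X => P ⊔ X) (t := T.toFinset)]
  · rw [Finset.sum_const_nat (m := c)]
    intro L hL
    have hL' : L ∈ T := by simpa using hL
    rw [← hc L hL', Set.ncard_eq_toFinset_card']
    congr 1
    ext X
    simp only [Finset.mem_filter, Set.mem_toFinset, Set.mem_setOf_eq]
    constructor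
    · rintro ⟨a, b⟩
      exact ⟨a, by rw [← b]; exact le_sup_right⟩
    · rintro ⟨a, b⟩
      exact ⟨a, sup_eq_of_le hP (hO X a).1 (hT L hL').1 (hT L hL').2 b (hO X a).2⟩
  · intro X hX
    have hX' : X ∈ O := by simpa using hX
    simpa using hcov X hX'

theorem cnt_inv (g : W ≃ₗ[F] W) (O : Set (Submodule F W)) (hO : ∀ X ∈ O, im g X ∈ O)
    (hO' : ∀ X ∈ O, im g⁻¹ X ∈ O) {L L' : Submodule F W} (h : im g L = L') :
    {X | X ∈ O ∧ X ≤ L}.ncard = {X | X ∈ O ∧ X ≤ L'}.ncard := by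
  have h1 : {X | X ∈ O ∧ X ≤ L'} = (fun X => im g X) '' {X | X ∈ O ∧ X ≤ L} := by
    ext X
    constructor
    · rintro ⟨a, b⟩
      refine ⟨im g⁻¹ X, ⟨hO' X a, ?_⟩, im_im_inv g X⟩
      rw [← im_le_im_iff g, im_im_inv, h]; exact b
    · rintro ⟨Y, ⟨a, b⟩, rfl⟩
      refine ⟨hO Y a, ?_⟩
      rw [← h]; exact im_mono g b
  rw [h1, Set.ncard_image_of_injective]
  intro X Y hXY
  exact (im_inj g).1 hXY

theorem ln_iff_hy (h3 : finrank F W = 3) (L : Submodule F W) : Ln L ↔ Hy L := by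
  rw [Ln, Hy, h3]; omega

theorem ncard_lines (h3 : finrank F W = 3) {P : Submodule F W} (hP : Pt P) :
    {L : Submodule F W | Ln L ∧ P ≤ L}.ncard = Nat.card F + 1 := by
  have h1 := card_hys_ge (F := F) (V := W) P
  rw [hP, h3] at h1
  have h2 : {L : Submodule F W | Ln L ∧ P ≤ L} = {L | Hy L ∧ P ≤ L} := by
    ext L; simp only [Set.mem_setOf_eq, ln_iff_hy h3]
  rw [h2, ← Nat.card_coe_set_eq]
  change Nat.card {L : Submodule F W // Hy L ∧ P ≤ L} = _
  rw [h1, show 3 - 1 = 1 + 1 from rfl, br_succ', br_one]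
  ring

theorem ncard_lines_ne (h3 : finrank F W = 3) {P L : Submodule F W} (hP : Pt P) (hL : Ln L)
    (hPL : P ≤ L) : {M : Submodule F W | Ln M ∧ P ≤ M ∧ M ≠ L}.ncard = Nat.card F := by
  have h1 := ncard_lines h3 hP
  have h2 : {M : Submodule F W | Ln M ∧ P ≤ M ∧ M ≠ L} = {M | Ln M ∧ P ≤ M} \ {L} := by
    ext M; simp only [Set.mem_setOf_eq, Set.mem_diff, Set.mem_singleton_iff, and_assoc]
  rw [h2, Set.ncard_diff_singleton_of_mem (show L ∈ {M : Submodule F W | Ln M ∧ P ≤ M} from ⟨hL, hPL⟩),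
    h1]
  rfl

theorem ncard_pts_not_le (h3 : finrank F W = 3) {L : Submodule F W} (hL : Ln L) :
    {X : Submodule F W | Pt X ∧ ¬ X ≤ L}.ncard = Nat.card F ^ 2 := by
  have h1 : {X : Submodule F W | Pt X}.ncard = br (Nat.card F) 3 := by
    rw [← h3, ← card_pts (F := F) (V := W), ← Nat.card_coe_set_eq]; rfl
  have h2 : {X : Submodule F W | Pt X ∧ X ≤ L}.ncard = br (Nat.card F) 2 := by
    rw [Ln] at hL
    rw [← hL, ← card_pts_le (F := F) (V := W), ← Nat.card_coe_set_eq]; rfl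
  have h4 : {X : Submodule F W | Pt X ∧ ¬ X ≤ L} = {X | Pt X} \ {X | Pt X ∧ X ≤ L} := by
    ext X; simp only [Set.mem_setOf_eq, Set.mem_diff]; tauto
  rw [h4, Set.ncard_diff (fun X hX => hX.1), h1, h2, br_succ]
  omega

/-- two distinct lines of a 3-space meet in a point -/
theorem pt_inf (h3 : finrank F W = 3) {L M : Submodule F W} (hL : Ln L) (hM : Ln M) (h : M ≠ L) :
    Pt (M ⊓ L) := by
  have hH : Hy L := (ln_iff_hy h3 L).1 hL
  have h1 : ¬ M ≤ L := by
    intro hc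
    exact h (Submodule.eq_of_le_of_finrank_eq hc (by rw [Ln] at hL hM; rw [hL, hM]))
  have h2 := finrank_inf_hy hH h1
  rw [Ln] at hM
  rw [Pt]; omega

/-- Abstract core of TT: a group on a 3-dimensional space such that the stabiliser of each point
`P` is 2-transitive on the lines through `P` is 2-transitive on points. -/
theorem twoTrans_core (h1 : BR1) (h4 : TRA) (h3 : finrank F W = 3) (G : Subgroup (W ≃ₗ[F] W))
    (A1 : ∀ P L L' : Submodule F W, Pt P → Ln L → Ln L' → P ≤ L → P ≤ L' →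
      ∃ g ∈ G, im g P = P ∧ im g L = L')
    (A2 : ∀ P L M M' : Submodule F W, Pt P → Ln L → Ln M → Ln M' → P ≤ L → P ≤ M → P ≤ M' →
      M ≠ L → M' ≠ L → ∃ g ∈ G, im g P = P ∧ im g L = L ∧ im g M = M') : TwoTrans G := by
  have hq : 2 ≤ Nat.card F := by
    haveI : Nontrivial F := inferInstance
    exact Finite.one_lt_card
  -- (2) transitivity on points
  have hpt : PtTrans G := by
    intro P0 y0 hP0 hy0
    by_contra hcon
    set O : Set (Submodule F W) := {y | ∃ g ∈ G, im g P0 = y} with hOdef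
    have hy0O : y0 ∉ O := hcon
    have hOpt : ∀ X ∈ O, Pt X := by rintro X ⟨g, hg, rfl⟩; exact hP0.im
    have hOinv : ∀ g ∈ G, ∀ X ∈ O, im g X ∈ O := by
      rintro g hg X ⟨k, hk, rfl⟩
      exact ⟨g * k, G.mul_mem hg hk, im_mul g k P0⟩
    have hP0O : P0 ∈ O := ⟨1, G.one_mem, im_one _⟩
    -- first count
    obtain ⟨c, hc⟩ : ∃ c, O.ncard = (Nat.card F + 1) * c := by
      obtain ⟨L0, hL0⟩ : ({L : Submodule F W | Ln L ∧ y0 ≤ L}).Nonempty := by
        rw [← Set.ncard_pos (Set.toFinite _), ncard_lines h3 hy0]; omega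
      refine ⟨{X | X ∈ O ∧ X ≤ L0}.ncard, ?_⟩
      rw [← ncard_lines h3 hy0]
      refine cnt_fib hy0 O _ (fun X hX => ⟨hOpt X hX, fun he => hy0O (he ▸ hX)⟩) (fun L hL => hL)
        (fun X hX => ?_) _ (fun L hL => ?_)
      · refine ⟨ln_sup hy0 (hOpt X hX) (fun he => hy0O (he ▸ hX)), le_sup_left⟩
      · obtain ⟨g, hg, hg1, hg2⟩ := A1 y0 L L0 hy0 hL.1 hL0.1 hL.2 hL0.2
        exact cnt_inv g O (hOinv g hg) (hOinv g⁻¹ (G.inv_mem hg)) hg2
    obtain ⟨c', hc'⟩ : ∃ c, (O \ {P0}).ncard = (Nat.card F + 1) * c := by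
      obtain ⟨L0, hL0⟩ : ({L : Submodule F W | Ln L ∧ P0 ≤ L}).Nonempty := by
        rw [← Set.ncard_pos (Set.toFinite _), ncard_lines h3 hP0]; omega
      refine ⟨{X | X ∈ O \ {P0} ∧ X ≤ L0}.ncard, ?_⟩
      rw [← ncard_lines h3 hP0]
      refine cnt_fib hP0 _ _ (fun X hX => ⟨hOpt X hX.1, fun he => hX.2 he⟩) (fun L hL => hL)
        (fun X hX => ?_) _ (fun L hL => ?_)
      · refine ⟨ln_sup hP0 (hOpt X hX.1) (fun he => hX.2 he.symm), le_sup_left⟩
      · obtain ⟨g, hg, hg1, hg2⟩ := A1 P0 L L0 hP0 hL.1 hL0.1 hL.2 hL0.2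
        refine cnt_inv g _ ?_ ?_ hg2
        · rintro X ⟨hX, hX2⟩
          refine ⟨hOinv g hg X hX, fun he => hX2 ?_⟩
          rw [Set.mem_singleton_iff] at he ⊢
          rw [← im_inj g, he, hg1]
        · rintro X ⟨hX, hX2⟩
          refine ⟨hOinv g⁻¹ (G.inv_mem hg) X hX, fun he => hX2 ?_⟩
          rw [Set.mem_singleton_iff] at he ⊢
          rw [← im_inj g⁻¹, he, im_inv_of_eq hg1]
    have h5 : (O \ {P0}).ncard + 1 = O.ncard := Set.ncard_diff_singleton_add_one hP0O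
    rw [hc', hc] at h5
    have h6 : (Nat.card F + 1) ∣ 1 := by
      rw [← Nat.dvd_add_right (Dvd.intro c' rfl : (Nat.card F + 1) ∣ (Nat.card F + 1) * c'), h5]
      exact Dvd.intro c rfl
    have := Nat.le_of_dvd one_pos h6
    omega
  have hln : ∀ L L' : Submodule F W, Ln L → Ln L' → ∃ g ∈ G, im g L = L' := by
    intro L L' hL hL'
    exact (h1 F W G).1 hpt L L' ((ln_iff_hy h3 L).1 hL) ((ln_iff_hy h3 L').1 hL')
  -- (3) the stabiliser of a line is transitive on the points outside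
  have hout : ∀ L X0 X1 : Submodule F W, Ln L → Pt X0 → Pt X1 → ¬ X0 ≤ L → ¬ X1 ≤ L →
      ∃ g ∈ G, im g L = L ∧ im g X0 = X1 := by
    intro L X0 X1 hL hX0 hX1 hX0L hX1L
    set O : Set (Submodule F W) := {y | ∃ g ∈ G, im g L = L ∧ im g X0 = y} with hOdef
    have hOpt : ∀ X ∈ O, Pt X := by rintro X ⟨g, hg, _, rfl⟩; exact hX0.im
    have hOL : ∀ X ∈ O, ¬ X ≤ L := by
      rintro X ⟨g, hg, hgL, rfl⟩ hc
      apply hX0L
      rw [← im_le_im_iff g, hgL]; exact hc
    have hOinv : ∀ g ∈ G, im g L = L → ∀ X ∈ O, im g X ∈ O := by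
      rintro g hg hgL X ⟨k, hk, hkL, rfl⟩
      exact ⟨g * k, G.mul_mem hg hk, by rw [im_mul, hkL, hgL], im_mul g k X0⟩
    have hX0O : X0 ∈ O := ⟨1, G.one_mem, im_one _, im_one _⟩
    have hcL : ∀ L' : Submodule F W, Ln L' → L' ≠ L →
        O.ncard = Nat.card F * {X | X ∈ O ∧ X ≤ L'}.ncard := by
      intro L' hL' hne
      have hP : Pt (L' ⊓ L) := pt_inf h3 hL hL' hne
      have hPL : L' ⊓ L ≤ L := inf_le_right
      have hPL' : L' ⊓ L ≤ L' := inf_le_left
      rw [← ncard_lines_ne h3 hP hL hPL]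
      refine cnt_fib hP O _ (fun X hX => ⟨hOpt X hX, fun he => hOL X hX (he ▸ hPL)⟩)
        (fun M hM => ⟨hM.1, hM.2.1⟩) (fun X hX => ?_) _ (fun M hM => ?_)
      · refine ⟨ln_sup hP (hOpt X hX) (fun he => hOL X hX (he ▸ hPL)), le_sup_left, fun he => ?_⟩
        exact hOL X hX (he ▸ le_sup_right)
      · obtain ⟨g, hg, hg1, hg2, hg3⟩ := A2 (L' ⊓ L) L M L' hP hL hM.1 hL' hPL hM.2.1 hPL'
          hM.2.2 hne
        exact cnt_inv g O (hOinv g hg hg2) (hOinv g⁻¹ (G.inv_mem hg) (im_inv_of_eq hg2)) hg3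
    obtain ⟨L0, hL0⟩ : ({L : Submodule F W | Ln L ∧ X0 ≤ L}).Nonempty := by
      rw [← Set.ncard_pos (Set.toFinite _), ncard_lines h3 hX0]; omega
    have hneL : ∀ M : Submodule F W, X0 ≤ M → M ≠ L := by
      rintro M hM rfl; exact hX0L hM
    have ha0 := hcL L0 hL0.1 (hneL L0 hL0.2)
    set a := {X | X ∈ O ∧ X ≤ L0}.ncard with ha
    have hca : ∀ M : Submodule F W, Ln M → X0 ≤ M → {X | X ∈ O ∧ X ≤ M}.ncard = a := by
      intro M hM hXM
      have := hcL M hM (hneL M hXM)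
      rw [ha0] at this
      exact (Nat.eq_of_mul_eq_mul_left (by omega) this).symm
    have ha1 : 1 ≤ a := by
      rw [ha, Nat.one_le_iff_ne_zero, ← Nat.pos_iff_ne_zero, Set.ncard_pos (Set.toFinite _)]
      exact ⟨X0, hX0O, hL0.2⟩
    have h5 : (O \ {X0}).ncard = (Nat.card F + 1) * (a - 1) := by
      rw [← ncard_lines h3 hX0]
      refine cnt_fib hX0 _ _ (fun X hX => ⟨hOpt X hX.1, fun he => hX.2 he⟩) (fun M hM => hM)
        (fun X hX => ?_) _ (fun M hM => ?_)
      · exact ⟨ln_sup hX0 (hOpt X hX.1) (fun he => hX.2 he.symm), le_sup_left⟩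
      · have h6 : {X | X ∈ O \ {X0} ∧ X ≤ M} = {X | X ∈ O ∧ X ≤ M} \ {X0} := by
          ext X
          simp only [Set.mem_setOf_eq, Set.mem_diff, Set.mem_singleton_iff]
          tauto
        rw [h6, Set.ncard_diff_singleton_of_mem (show X0 ∈ {X | X ∈ O ∧ X ≤ M} from ⟨hX0O, hM.2⟩),
          hca M hM.1 hM.2]
    have h7 : (O \ {X0}).ncard + 1 = O.ncard := Set.ncard_diff_singleton_add_one hX0O
    have h8 : O.ncard = Nat.card F ^ 2 := by
      obtain ⟨b, hb⟩ := Nat.exists_eq_add_of_le ha1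
      rw [h5, ha0, hb] at h7
      have h9 : 1 + b - 1 = b := by omega
      rw [h9] at h7
      have h10 : b + 1 = Nat.card F := by nlinarith
      rw [ha0, hb, add_comm 1 b, h10]; ring
    have h9 : O = {X : Submodule F W | Pt X ∧ ¬ X ≤ L} := by
      apply Set.eq_of_subset_of_ncard_le
      · intro X hX; exact ⟨hOpt X hX, hOL X hX⟩
      · rw [ncard_pts_not_le h3 hL, h8]
      · exact Set.toFinite _
    have h10 : X1 ∈ O := by rw [h9]; exact ⟨hX1, hX1L⟩
    exact h10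
  -- (4)
  have hTRA : ∀ x : Submodule F W, Pt x → ∀ y z : Submodule F W, Pt y → Pt z → y ≠ x → z ≠ x →
      z ≤ x ⊔ y → ∃ g ∈ G, im g x = x ∧ im g y = z := by
    intro x hx
    apply h4 F W G x hx
    intro H H' hH hH' hxH hxH'
    have hHl : Ln H := (ln_iff_hy h3 H).2 hH
    have hHl' : Ln H' := (ln_iff_hy h3 H').2 hH'
    obtain ⟨g, hg, hg1⟩ := hln H H' hHl hHl'
    obtain ⟨k, hk, hk1, hk2⟩ := hout H' (im g x) x hHl' hx.im hx
      (by rw [← hg1, im_le_im_iff]; exact hxH) hxH'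
    exact ⟨k * g, G.mul_mem hk hg, by rw [im_mul, hk2], by rw [im_mul, hg1, hk1]⟩
  intro x y x' y' hx hy hx' hy' hxy hxy'
  obtain ⟨g, hg, hg1⟩ := hpt x x' hx hx'
  have hy1 : Pt (im g y) := hy.im
  have hne1 : im g y ≠ x' := by
    rw [← hg1]; intro he; exact hxy ((im_inj g).1 he).symm
  obtain ⟨h, hh, hh1, hh2⟩ := A1 x' (x' ⊔ im g y) (x' ⊔ y') hx' (ln_sup hx' hy1 hne1.symm)
    (ln_sup hx' hy' hxy') le_sup_left le_sup_left
  have hy2 : Pt (im h (im g y)) := hy1.im
  have hne2 : im h (im g y) ≠ x' := by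
    intro he
    apply hne1
    rw [← im_inj h, he, hh1]
  have hle : y' ≤ x' ⊔ im h (im g y) := by
    have : x' ⊔ im h (im g y) = x' ⊔ y' := by
      rw [← hh2, im_sup, hh1]
    rw [this]; exact le_sup_right
  obtain ⟨k, hk, hk1, hk2⟩ := hTRA x' hx' _ y' hy2 hy' hne2 hxy'.symm hle
  refine ⟨k * (h * g), G.mul_mem hk (G.mul_mem hh hg), ?_, ?_⟩
  · rw [im_mul, im_mul, hg1, hh1, hk1]
  · rw [im_mul, im_mul, hk2]

end

end GL4.TTaux

namespace GL4

open Module Submodule

theorem tt (h1 : BR1) (h2 : BR2) (h3 : ANT) (h4 : TRA) (h5 : MT3) : TT := by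
  intro F _ _ V _ _ _ K hn hK E hE
  have hant := (h3 F V K hn hK).1
  -- (A2) for K
  have A2 : ∀ P L M M' : Submodule F V, Pt P → Ln L → Ln M → Ln M' → P ≤ L → P ≤ M → P ≤ M' →
      L ≤ E → M ≤ E → M' ≤ E →
      M ≠ L → M' ≠ L → ∃ g ∈ K, im g P = P ∧ im g E = E ∧ im g L = L ∧ im g M = M' := by
    intro P L M M' hP hL hM hM' hPL hPM hPM' hLE hME hME' hne hne'
    have hA := hant P hP
    have hsup : ∀ N : Submodule F V, Ln N → N ≤ E → N ≠ L → L ⊔ N = E := by
      intro N hN hNE hNL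
      have h6 : L < L ⊔ N := by
        refine lt_of_le_of_ne le_sup_left fun he => hNL ?_
        refine Submodule.eq_of_le_of_finrank_eq (by rw [he]; exact le_sup_right) ?_
        rw [Ln] at hN hL; rw [hN, hL]
      have h7 := Submodule.finrank_lt_finrank_of_lt h6
      have h8 : L ⊔ N ≤ E := sup_le hLE hNE
      refine Submodule.eq_of_le_of_finrank_eq h8 ?_
      have h9 := Submodule.finrank_mono h8
      rw [Ln] at hL
      rw [Pl] at hE
      omega
    obtain ⟨g, hg, hg1, hg2⟩ := h4 F (V ⧸ P) (qGrp K P) (L.map P.mkQ) (hL.down hPL hP)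
      (by
        intro H H' hH hH' hxH hxH'
        exact hA _ H _ H' (hL.down hPL hP) hH (hL.down hPL hP) hH' hxH hxH')
      (M.map P.mkQ) (M'.map P.mkQ) (hM.down hPM hP) (hM'.down hPM' hP)
      (fun he => hne ((down_inj hPM hPL).1 he)) (fun he => hne' ((down_inj hPM' hPL).1 he))
      (by
        rw [← Submodule.map_sup, hsup M hM hME hne]
        exact Submodule.map_mono hME')
    obtain ⟨k, hk, hkP, hkq⟩ := hg
    have hkL : im k L = L := by
      have h6 : P ≤ im k L := by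
        conv_lhs => rw [← hkP]
        exact im_mono k hPL
      rw [← down_inj h6 hPL, ← im_down hkq, hg1]
    have hkM : im k M = M' := by
      have h6 : P ≤ im k M := by
        conv_lhs => rw [← hkP]
        exact im_mono k hPM
      rw [← down_inj h6 hPM', ← im_down hkq, hg2]
    refine ⟨k, hk, hkP, ?_, hkL, hkM⟩
    conv_lhs => rw [← hsup M hM hME hne, im_sup, hkL, hkM]
    exact hsup M' hM' hME' hne'
  have A1 : ∀ P L L' : Submodule F V, Pt P → Ln L → Ln L' → P ≤ L → P ≤ L' →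
      L ≤ E → L' ≤ E → ∃ g ∈ K, im g P = P ∧ im g E = E ∧ im g L = L' := by
    intro P L L' hP hL hL' hPL hPL' hLE hLE'
    have hnot : ∀ N : Submodule F V, Ln N → ¬ E ≤ N := by
      intro N hN hc
      have := Submodule.finrank_mono hc
      rw [Ln] at hN
      rw [Pl] at hE
      omega
    obtain ⟨z, hz, hzE, hzL, hzL'⟩ := exists_pt_not_le₂ (hnot L hL) (hnot L' hL')
    have hPz : P ≠ z := by rintro rfl; exact hzL hPL
    have hN : Ln (P ⊔ z) := ln_sup hP hz hPz
    obtain ⟨g, hg, hg1, hg2, hg3, hg4⟩ := A2 P (P ⊔ z) L L' hP hN hL hL' le_sup_left hPL hPL'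
      (sup_le (hPL.trans hLE) hzE) hLE hLE' (by rintro rfl; exact hzL le_sup_right)
      (by rintro rfl; exact hzL' le_sup_right)
    exact ⟨g, hg, hg1, hg2, hg4⟩
  have hinj : Function.Injective (fun Z : Submodule F E => Z.map E.subtype) :=
    Submodule.map_injective_of_injective E.subtype_injective
  have hptE : ∀ Z : Submodule F E, Pt Z → Pt (Z.map E.subtype) := by
    intro Z hZ; rw [Pt, finrank_incl]; exact hZ
  have hlnE : ∀ Z : Submodule F E, Ln Z → Ln (Z.map E.subtype) := by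
    intro Z hZ; rw [Ln, finrank_incl]; exact hZ
  have htw : TwoTrans (sGrp K E) := by
    apply TTaux.twoTrans_core h1 h4 hE
    · intro P L L' hP hL hL' hPL hPL'
      obtain ⟨k, hk, hk1, hk2, hk3⟩ := A1 _ _ _ (hptE P hP) (hlnE L hL) (hlnE L' hL')
        (Submodule.map_mono hPL) (Submodule.map_mono hPL') (incl_le L) (incl_le L')
      obtain ⟨g, hg, hgk⟩ := exists_sGrp hk hk2
      refine ⟨g, hg, hinj ?_, hinj ?_⟩
      · change (im g P).map E.subtype = P.map E.subtype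
        rw [im_incl hgk, hk1]
      · change (im g L).map E.subtype = L'.map E.subtype
        rw [im_incl hgk, hk3]
    · intro P L M M' hP hL hM hM' hPL hPM hPM' hne hne'
      obtain ⟨k, hk, hk1, hk2, hk3, hk4⟩ := A2 _ _ _ _ (hptE P hP) (hlnE L hL) (hlnE M hM)
        (hlnE M' hM') (Submodule.map_mono hPL) (Submodule.map_mono hPM) (Submodule.map_mono hPM')
        (incl_le L) (incl_le M) (incl_le M') (fun he => hne (hinj he)) (fun he => hne' (hinj he))
      obtain ⟨g, hg, hgk⟩ := exists_sGrp hk hk2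
      refine ⟨g, hg, hinj ?_, hinj ?_, hinj ?_⟩
      · change (im g P).map E.subtype = P.map E.subtype
        rw [im_incl hgk, hk1]
      · change (im g L).map E.subtype = L.map E.subtype
        rw [im_incl hgk, hk3]
      · change (im g M).map E.subtype = M'.map E.subtype
        rw [im_incl hgk, hk4]
  rcases h5 F E hE (sGrp K E) htw with h6 | h6
  · exact h6
  · exact absurd h6.1 (by norm_num)

end GL4

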